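import Pool.Agent.helper4.NF.SpecA

/-!
# Project nf (MP_4467b5_nt), module OFA: the off-diagonal terms of `Jg`
-/

set_option autoImplicit false

open Complex MeasureTheory

namespace Pool.Agent.NF

open Pool.Agent.helper84.DM Pool.Agent.helper78.ED Pool.Agent.DH Pool.Agent.ZD

theorem OFA_kapc : Continuous kap := by
  unfold kap
  refine continuous_const.div (by fun_prop) fun a => ?_
  positivity

theorem OFA_kap0 (x : ℝ) : 0 ≤ kap x := by
  unfold kap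
  positivity

/-- The Gaussian factor. -/
noncomputable def OFA_E (T : ℝ) (N : ℕ) (v : ℝ) : ℝ :=
  ∑ n ∈ Finset.Ioc N (4 * N), ∑ n' ∈ Finset.Ioc N (4 * N),
    Real.exp (-(T * (v + Real.log n - Real.log n')) ^ 2 / 4)

/-- The kernel factor. -/
noncomputable def OFA_K (X X₀ : ℝ) (M M₀ : ℕ) (a b : ℝ) : ℝ :=
  ∑ m₁ ∈ MM M, ∑ m₂ ∈ MM M, ∑ m₃ ∈ MM M₀,
    kap (X * ((m₁ : ℝ) * Real.exp a - m₂ * Real.exp b) + X₀ * m₃)

theorem OFA_KB (T X X₀ : ℝ) (M M₀ N : ℕ) (a b : ℝ) :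
    KB T X X₀ M M₀ N a b = OFA_E T N (a - b) * OFA_K X X₀ M M₀ a b := by
  unfold KB OFA_E
  rw [Finset.sum_mul]
  refine Finset.sum_congr rfl fun n _ => ?_
  rw [Finset.sum_mul]
  refine Finset.sum_congr rfl fun n' _ => ?_
  unfold OFA_K
  rw [Finset.mul_sum]
  refine Finset.sum_congr rfl fun m₁ _ => ?_
  rw [Finset.mul_sum]
  refine Finset.sum_congr rfl fun m₂ _ => ?_
  rw [Finset.mul_sum]

theorem OFA_E0 (T : ℝ) (N : ℕ) (v : ℝ) : 0 ≤ OFA_E T N v :=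
  Finset.sum_nonneg fun _ _ => Finset.sum_nonneg fun _ _ => (Real.exp_pos _).le

theorem OFA_K0 (X X₀ : ℝ) (M M₀ : ℕ) (a b : ℝ) : 0 ≤ OFA_K X X₀ M M₀ a b :=
  Finset.sum_nonneg fun _ _ => Finset.sum_nonneg fun _ _ => Finset.sum_nonneg fun _ _ => OFA_kap0 _

theorem OFA_Es (T : ℝ) (N : ℕ) (v : ℝ) : OFA_E T N (-v) = OFA_E T N v := by
  unfold OFA_E
  rw [Finset.sum_comm]
  refine Finset.sum_congr rfl fun n _ => Finset.sum_congr rfl fun n' _ => ?_
  congr 1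
  ring

theorem OFA_Ks (X X₀ : ℝ) (M M₀ : ℕ) (a b : ℝ) : OFA_K X X₀ M M₀ b a = OFA_K X X₀ M M₀ a b := by
  unfold OFA_K
  rw [Finset.sum_comm]
  refine Finset.sum_congr rfl fun m₁ _ => Finset.sum_congr rfl fun m₂ _ => ?_
  refine Finset.sum_nbij' (fun m => -m) (fun m => -m) ?_ ?_ ?_ ?_ ?_
  · intro m hm
    rw [MM, Finset.mem_erase, Finset.mem_Icc] at hm ⊢
    omega
  · intro m hm
    rw [MM, Finset.mem_erase, Finset.mem_Icc] at hm ⊢
    omega
  · intro m _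
    exact neg_neg m
  · intro m _
    exact neg_neg m
  · intro m _
    unfold kap
    push_cast
    congr 2
    ring

theorem OFA_KBs (T X X₀ : ℝ) (M M₀ N : ℕ) (a b : ℝ) :
    KB T X X₀ M M₀ N b a = KB T X X₀ M M₀ N a b := by
  rw [OFA_KB, OFA_KB, OFA_Ks, ← OFA_Es, neg_sub]

theorem OFA_KBc (T X X₀ : ℝ) (M M₀ N : ℕ) :
    Continuous fun p : ℝ × ℝ => KB T X X₀ M M₀ N p.1 p.2 := by
  unfold KB
  refine continuous_finsetSum _ fun n _ => continuous_finsetSum _ fun n' _ =>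
    continuous_finsetSum _ fun m₁ _ => continuous_finsetSum _ fun m₂ _ =>
    continuous_finsetSum _ fun m₃ _ => ?_
  refine Continuous.mul (by fun_prop) (OFA_kapc.comp (by fun_prop))

theorem OFA_xfc (W : Finset ℝ) (f : ℝ → ℂ) : Continuous (xf W f) := by
  unfold xf ex
  fun_prop

theorem OFA_Zc (T : ℝ) (A : Finset ℕ) (b : ℕ → ℂ) : Continuous (ZQ T A b) := by
  unfold ZQ
  fun_prop

theorem OFA_Z (T : ℝ) (N : ℕ) (b : ℕ → ℂ) (v : ℝ) (hT : 0 < T)
    (hb : ∀ n ∈ Finset.Ioc N (4 * N), ‖b n‖ ≤ 2) :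
    ‖ZQ T (Finset.Ioc N (4 * N)) b v‖ ≤ 4 * Real.sqrt Real.pi * T * OFA_E T N v := by
  unfold ZQ OFA_E
  rw [norm_mul, Complex.norm_real, Real.norm_of_nonneg (by positivity)]
  have h1 : ‖∑ n ∈ Finset.Ioc N (4 * N), ∑ n' ∈ Finset.Ioc N (4 * N),
      b n * (starRingEnd ℂ) (b n') *
        ((Real.exp (-(T * (v + Real.log n - Real.log n')) ^ 2 / 4) : ℝ) : ℂ)‖ ≤
      ∑ n ∈ Finset.Ioc N (4 * N), ∑ n' ∈ Finset.Ioc N (4 * N),
        4 * Real.exp (-(T * (v + Real.log n - Real.log n')) ^ 2 / 4) := by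
    refine (norm_sum_le _ _).trans (Finset.sum_le_sum fun n hn => ?_)
    refine (norm_sum_le _ _).trans (Finset.sum_le_sum fun n' hn' => ?_)
    rw [norm_mul, norm_mul, RCLike.norm_conj, Complex.norm_real,
      Real.norm_of_nonneg (Real.exp_pos _).le]
    refine mul_le_mul_of_nonneg_right ?_ (Real.exp_pos _).le
    calc ‖b n‖ * ‖b n'‖ ≤ 2 * 2 := mul_le_mul (hb n hn) (hb n' hn') (norm_nonneg _) (by norm_num)
      _ = 4 := by norm_num
  have h2 : ∑ n ∈ Finset.Ioc N (4 * N), ∑ n' ∈ Finset.Ioc N (4 * N),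
      4 * Real.exp (-(T * (v + Real.log n - Real.log n')) ^ 2 / 4) =
      4 * ∑ n ∈ Finset.Ioc N (4 * N), ∑ n' ∈ Finset.Ioc N (4 * N),
        Real.exp (-(T * (v + Real.log n - Real.log n')) ^ 2 / 4) := by
    rw [Finset.mul_sum]
    refine Finset.sum_congr rfl fun n _ => ?_
    rw [Finset.mul_sum]
  rw [h2] at h1
  refine (mul_le_mul_of_nonneg_left h1 (by positivity)).trans (le_of_eq ?_)
  ring

theorem OFA_set (F : ℝ → ℝ) : ∫ x in Set.Icc (-5 : ℝ) 5, F x = ∫ x in (-5 : ℝ)..5, F x := by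
  rw [intervalIntegral.integral_of_le (by norm_num), integral_Icc_eq_integral_Ioc]

theorem OFA_norm {Φ : ℝ → ℝ → ℂ} {F : ℝ → ℝ → ℝ} (hF : Continuous (Function.uncurry F))
    (h0 : ∀ a b, 5 < |a| ∨ 5 < |b| → Φ a b = 0) (hle : ∀ a b, ‖Φ a b‖ ≤ F a b) :
    ‖∫ a, ∫ b, Φ a b‖ ≤ ∫ a in (-5 : ℝ)..5, ∫ b in (-5 : ℝ)..5, F a b := by
  have hmem : ∀ x : ℝ, x ∉ Set.Icc (-5 : ℝ) 5 → 5 < |x| := by
    intro x hx
    rw [Set.mem_Icc, not_and_or, not_le, not_le] at hx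
    rcases hx with hx | hx
    · rw [lt_abs]
      right
      linarith
    · rw [lt_abs]
      left
      exact hx
  have hc : Continuous fun a => ∫ b in (-5 : ℝ)..5, F a b :=
    intervalIntegral.continuous_parametric_intervalIntegral_of_continuous' hF _ _
  have hin : ∀ a, ‖∫ b, Φ a b‖ ≤ ∫ b in (-5 : ℝ)..5, F a b := by
    intro a
    rw [← setIntegral_eq_integral_of_forall_compl_eq_zero (s := Set.Icc (-5 : ℝ) 5)
      (fun b hb => h0 a b (Or.inr (hmem b hb))), ← OFA_set]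
    refine norm_integral_le_of_norm_le ?_ (Filter.Eventually.of_forall fun b => hle a b)
    exact (hF.comp (by fun_prop : Continuous fun b : ℝ => (a, b))).continuousOn.integrableOn_compact
      isCompact_Icc
  rw [← setIntegral_eq_integral_of_forall_compl_eq_zero (s := Set.Icc (-5 : ℝ) 5)
    (fun a ha => ?_), ← OFA_set]
  · refine norm_integral_le_of_norm_le ?_ (Filter.Eventually.of_forall fun a => hin a)
    exact hc.continuousOn.integrableOn_compact isCompact_Icc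
  · have : (fun b => Φ a b) = fun _ => 0 := funext fun b => h0 a b (Or.inl (hmem a ha))
    rw [this, integral_zero]

theorem OFA_core {Φ : ℝ → ℝ → ℂ} {u : ℝ → ℝ} {K : ℝ → ℝ → ℝ} {c : ℝ} (hc0 : 0 ≤ c)
    (hu : Continuous u) (hKc : Continuous (Function.uncurry K)) (hK0 : ∀ a d, 0 ≤ K a d)
    (hKs : ∀ a d, K d a = K a d) (h0 : ∀ a b, 5 < |a| ∨ 5 < |b| → Φ a b = 0)
    (hle : ∀ a d, ‖Φ a d‖ ≤ c * (u a * u d * K a d)) :
    ‖∫ a, ∫ b, Φ a b‖ ≤ c * ∫ a in (-5 : ℝ)..5, u a ^ 2 * ∫ d in (-5 : ℝ)..5, K a d := by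
  obtain ⟨P, hP⟩ : ∃ P : ℝ → ℝ → ℝ, P = fun a d => c / 2 * (u a ^ 2 * K a d) := ⟨_, rfl⟩
  have hPc : Continuous (Function.uncurry P) := by
    rw [hP]
    show Continuous fun p : ℝ × ℝ => c / 2 * (u p.1 ^ 2 * K p.1 p.2)
    exact continuous_const.mul (((hu.comp continuous_fst).pow 2).mul hKc)
  have hPc' : Continuous (Function.uncurry fun a d => P d a) :=
    hPc.comp (continuous_snd.prodMk continuous_fst)
  have hle' : ∀ a d, ‖Φ a d‖ ≤ P a d + P d a := by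
    intro a d
    refine (hle a d).trans ?_
    rw [hP]
    show c * (u a * u d * K a d) ≤ c / 2 * (u a ^ 2 * K a d) + c / 2 * (u d ^ 2 * K d a)
    rw [hKs a d]
    have h6 : u a * u d ≤ (u a ^ 2 + u d ^ 2) / 2 := by nlinarith [sq_nonneg (u a - u d)]
    have h7 := mul_le_mul_of_nonneg_left (mul_le_mul_of_nonneg_right h6 (hK0 a d)) hc0
    refine h7.trans (le_of_eq ?_)
    ring
  have hPP : Continuous (Function.uncurry fun a d => P a d + P d a) := hPc.add hPc'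
  have h2 := OFA_norm hPP h0 hle'
  refine h2.trans (le_of_eq ?_)
  have e1 : ∀ a, ∫ d in (-5 : ℝ)..5, (P a d + P d a) =
      (∫ d in (-5 : ℝ)..5, P a d) + ∫ d in (-5 : ℝ)..5, P d a := by
    intro a
    refine intervalIntegral.integral_add ?_ ?_
    · exact (hPc.comp (by fun_prop : Continuous fun d : ℝ => (a, d))).intervalIntegrable _ _
    · exact (hPc.comp (by fun_prop : Continuous fun d : ℝ => (d, a))).intervalIntegrable _ _
  have e2 : ∫ a in (-5 : ℝ)..5, ∫ d in (-5 : ℝ)..5, P d a =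
      ∫ a in (-5 : ℝ)..5, ∫ d in (-5 : ℝ)..5, P a d := by
    refine intervalIntegral_intervalIntegral_swap ?_
    refine (hPc'.continuousOn.integrableOn_compact
      (isCompact_Icc.prod isCompact_Icc :
        IsCompact (Set.Icc (-5 : ℝ) 5 ×ˢ Set.Icc (-5 : ℝ) 5))).mono_set ?_
    rw [Set.uIoc_of_le (by norm_num)]
    exact Set.prod_mono Set.Ioc_subset_Icc_self Set.Ioc_subset_Icc_self
  simp only [e1]
  rw [intervalIntegral.integral_add, e2]
  · have e3 : ∀ a, ∫ d in (-5 : ℝ)..5, P a d =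
        c / 2 * (u a ^ 2 * ∫ d in (-5 : ℝ)..5, K a d) := by
      intro a
      rw [← intervalIntegral.integral_const_mul, ← intervalIntegral.integral_const_mul, hP]
    simp only [e3]
    rw [intervalIntegral.integral_const_mul]
    ring
  · exact (intervalIntegral.continuous_parametric_intervalIntegral_of_continuous' hPc
      _ _).intervalIntegrable _ _
  · exact (intervalIntegral.continuous_parametric_intervalIntegral_of_continuous' hPc'
      _ _).intervalIntegrable _ _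

theorem OFA_eq (hTRI : TRI_stmt) (hIID : IID_stmt) (hEXB : EXB_stmt) {g : ℝ → ℝ} (hg : SR g)
    (T X X₀ : ℝ) (M M₀ N : ℕ) (b : ℕ → ℂ) (W : Finset ℝ) (f : ℝ → ℂ) (hT : 0 < T) :
    ∑ t₁ ∈ W, ∑ t₂ ∈ W, f t₁ * (starRingEnd ℂ) (f t₂) * Bs X₀ M₀ (t₁ - t₂) *
      IW T g X M (Finset.Ioc N (4 * N)) b t₁ t₂ =
      ∫ a : ℝ, ∫ c : ℝ, xf W f a * (starRingEnd ℂ) (xf W f c) *
        ZQ T (Finset.Ioc N (4 * N)) b (a - c) *
        ∫ z : ℝ, GW g X M (z + a) * (starRingEnd ℂ) (GW g X M (z + c)) * GE X₀ M₀ z := by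
  obtain ⟨hSP, -, hGE, hBs, -, hcs⟩ := hEXB
  have hGEf : GW Phi X₀ M₀ = GE X₀ M₀ := funext fun x => hGE X₀ M₀ x
  obtain ⟨hGc, hG0⟩ := hcs g hg X M
  have hHc : Continuous (GE X₀ M₀) := by
    rw [← hGEf]
    exact (hcs Phi hSP X₀ M₀).1
  have hH0 : ∀ x, 5 < |x| → GE X₀ M₀ x = 0 := by
    intro x hx
    rw [← hGEf]
    exact (hcs Phi hSP X₀ M₀).2 x hx
  have h0A : 0 ∉ Finset.Ioc N (4 * N) := by
    rw [Finset.mem_Ioc]
    omega
  have h1 := hTRI (GW g X M) (GE X₀ M₀) (ZQ T (Finset.Ioc N (4 * N)) b) hGc hHc (OFA_Zc _ _ _)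
      hG0 hH0 W f
  rw [← h1]
  refine Finset.sum_congr rfl fun t₁ _ => Finset.sum_congr rfl fun t₂ _ => ?_
  have h2 := hIID g hg T X M (Finset.Ioc N (4 * N)) b hT h0A t₁ t₂
  have h3 : Bs X₀ M₀ (t₁ - t₂) = ∫ z : ℝ, GE X₀ M₀ z * ex (-((t₁ - t₂) * z)) := by
    rw [← hBs, BW, hGEf]
  rw [h2, h3]

theorem OFA (hTRI : TRI_stmt) (hIID : IID_stmt) (hKGT : KGT_stmt) (hEXB : EXB_stmt) : OFA_stmt := by
  intro g hg
  obtain ⟨C, hC, hK⟩ := hKGT g hg
  refine ⟨4 * Real.sqrt Real.pi * C, by positivity, ?_⟩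
  intro T X X₀ M M₀ N b W f hT hX₀ hN hb
  rw [OFA_eq hTRI hIID hEXB hg T X X₀ M M₀ N b W f hT]
  have h2 := OFA_core (c := 4 * Real.sqrt Real.pi * C * T * X ^ 2 * X₀)
    (u := fun a => ‖xf W f a‖) (K := fun a d => KB T X X₀ M M₀ N a d)
    (Φ := fun a c => xf W f a * (starRingEnd ℂ) (xf W f c) *
        ZQ T (Finset.Ioc N (4 * N)) b (a - c) *
        ∫ z : ℝ, GW g X M (z + a) * (starRingEnd ℂ) (GW g X M (z + c)) * GE X₀ M₀ z)
    (by positivity) (OFA_xfc W f).norm (OFA_KBc T X X₀ M M₀ N) (fun a d => by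
      rw [OFA_KB]
      exact mul_nonneg (OFA_E0 _ _ _) (OFA_K0 _ _ _ _ _ _))
    (fun a d => OFA_KBs T X X₀ M M₀ N a d)
    (fun a d had => by
      show xf W f a * (starRingEnd ℂ) (xf W f d) * ZQ T (Finset.Ioc N (4 * N)) b (a - d) *
        (∫ z : ℝ, GW g X M (z + a) * (starRingEnd ℂ) (GW g X M (z + d)) * GE X₀ M₀ z) = 0
      rw [(hK X X₀ M M₀ a d hX₀).1 had, mul_zero])
    (fun a d => by
      show ‖xf W f a * (starRingEnd ℂ) (xf W f d) * ZQ T (Finset.Ioc N (4 * N)) b (a - d) *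
        (∫ z : ℝ, GW g X M (z + a) * (starRingEnd ℂ) (GW g X M (z + d)) * GE X₀ M₀ z)‖ ≤
        4 * Real.sqrt Real.pi * C * T * X ^ 2 * X₀ *
          (‖xf W f a‖ * ‖xf W f d‖ * KB T X X₀ M M₀ N a d)
      rw [norm_mul, norm_mul, norm_mul, RCLike.norm_conj]
      have h3 := (hK X X₀ M M₀ a d hX₀).2
      have h4 := OFA_Z T N b (a - d) hT hb
      have h5 : ‖ZQ T (Finset.Ioc N (4 * N)) b (a - d)‖ *
          ‖∫ z : ℝ, GW g X M (z + a) * (starRingEnd ℂ) (GW g X M (z + d)) * GE X₀ M₀ z‖ ≤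
          (4 * Real.sqrt Real.pi * T * OFA_E T N (a - d)) *
            (C * X ^ 2 * X₀ * OFA_K X X₀ M M₀ a d) :=
        mul_le_mul h4 h3 (norm_nonneg _) (mul_nonneg (by positivity) (OFA_E0 _ _ _))
      rw [OFA_KB, mul_assoc (‖xf W f a‖ * ‖xf W f d‖)]
      refine (mul_le_mul_of_nonneg_left h5
        (mul_nonneg (norm_nonneg _) (norm_nonneg _))).trans (le_of_eq ?_)
      ring)
  refine h2.trans (le_of_eq ?_)
  ring

end Pool.Agent.NF
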